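import Pool.Agent.R351.GD.J.Win

/-!
# The modular Schanuel conjecture with derivatives and special points: relations of growing degree in windows

Let `j` be the modular invariant and let `z_1, …, z_k` be points of the upper half-plane for which the numbers
`n_i = j(z_i)` are distinct integers. If the `z_i` are not special and pairwise not equivalent under `GL_2(ℚ)`, the
conjecture predicts that the `3 k` numbers `z_i`, `j'(z_i)`, `j''(z_i)` are algebraically independent, and that they stay
independent if one adds the values `j'(w_1), …, j'(w_q)` at inequivalent special points `w_l` with `j'(w_l) ≠ 0`: this is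
the bound `3 m_1 + m_2` with `m_1 = k`, `m_2 = q`.

We prove: for all `q`, `k` there is a number `C` such that for all `δ` and all `N`, `H` with `(H + 2)^((δ + 2)^C) ≤ N`, all
complex numbers `w_1, …, w_q` and each sign `ε` there is a set `S` of at most `q + 2` integers such that for all distinct
integers `n_1, …, n_k` outside `S` with `N ≤ ε n_i ≤ N + H` and all points `z_i` with `j(z_i) = n_i` every relation of degree
at most `δ` between the numbers `z_i`, `j'(z_i)`, `j''(z_i)`, with coefficients which are polynomials in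
`2 π i, w_1, …, w_q` over a number field of degree at most `δ`, is trivial: the polynomial is zero after the substitution of
the numbers `2 π i, w_1, …, w_q`. Here `δ` may grow, up to a fixed power of `log N / log (H + 2)`; the number of exceptions
does not depend on `δ`. If the `q + 1` numbers `2 π i, w_l` are algebraically independent, there is no relation of degree
`≤ δ` between them and the `3 k` numbers. With `w_l = j'(special point)` this is the bound of the conjecture in degree `δ`.

The proof follows the starting library (`MP_f58a57_nt.DistinctWindows`, project of helper120; parts by helper109, helper167,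
helper170, helper25, helper239, helper259, helper317, helper340, helper606, helper664, helper929), with polynomial bounds in
`δ` at every step: the monomials of degree at most `Δ` in the four G-functions of one shift are a G-system with a constant
which is exponential in `Δ` only, the exponent in the theorem on the values of G-functions is polynomial in their number,
and the elimination of the constants `2 π i`, `w_l`, `log |n|` by Hilbert functions costs a polynomial in `δ`.
-/

set_option autoImplicit false

namespace Pool.Agent.Results.MP_f58a57_nt.GrowingDegreeWindows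

/-- the normalised Eisenstein series of weight `4` -/
noncomputable def E4 (τ : ℂ) : ℂ :=
  1 + 240 * ∑' m : ℕ, ((ArithmeticFunction.sigma 3 (m + 1) : ℕ) : ℂ) *
    Complex.exp (2 * (Real.pi : ℂ) * Complex.I * ((m : ℂ) + 1) * τ)

/-- the normalised Eisenstein series of weight `6` -/
noncomputable def E6 (τ : ℂ) : ℂ :=
  1 - 504 * ∑' m : ℕ, ((ArithmeticFunction.sigma 5 (m + 1) : ℕ) : ℂ) *
    Complex.exp (2 * (Real.pi : ℂ) * Complex.I * ((m : ℂ) + 1) * τ)

/-- the modular invariant `j = q⁻¹ + 744 + 196884 q + ⋯` -/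
noncomputable def J (τ : ℂ) : ℂ := 1728 * E4 τ ^ 3 / (E4 τ ^ 3 - E6 τ ^ 2)

/-- the numbers `z`, `j'(z)`, `j''(z)` -/
noncomputable def numbers (z : ℂ) : Fin 3 → ℂ := ![z, deriv J z, deriv (deriv J) z]

/-- The numbers `2 π i, w_1, …, w_q` and `numbers (z_1), …, numbers (z_k)`. -/
noncomputable def values {q k : ℕ} (w : Fin q → ℂ) (z : Fin k → ℂ) : Option (Fin q) ⊕ Fin k × Fin 3 → ℂ :=
  Sum.elim (fun o => o.elim (2 * Real.pi * Complex.I) w) fun v => numbers (z v.1) v.2

/-- The numbers `2 π i, w_1, …, w_q` and `3 k` variables. -/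
noncomputable def generic {q k : ℕ} (w : Fin q → ℂ) :
    Option (Fin q) ⊕ Fin k × Fin 3 → MvPolynomial (Fin k × Fin 3) ℂ :=
  Sum.elim (fun o => MvPolynomial.C (o.elim (2 * Real.pi * Complex.I) w)) MvPolynomial.X

lemma gen_eval {q k : ℕ} (K : IntermediateField ℚ ℂ) (w : Fin q → ℂ) (u : Fin k × Fin 3 → ℂ)
    (P : MvPolynomial (Option (Fin q) ⊕ Fin k × Fin 3) K) :
    MvPolynomial.eval u (MvPolynomial.aeval (generic (k := k) w) P) =
      MvPolynomial.aeval (Sum.elim (Pool.Agent.Y120.K.wo w) u) P := by
  have h2 : ((MvPolynomial.aeval u : MvPolynomial (Fin k × Fin 3) ℂ →ₐ[ℂ] ℂ).restrictScalars K).comp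
      (MvPolynomial.aeval (generic (k := k) w) : MvPolynomial (Option (Fin q) ⊕ Fin k × Fin 3) K →ₐ[K] MvPolynomial (Fin k × Fin 3) ℂ)
      = MvPolynomial.aeval (Sum.elim (Pool.Agent.Y120.K.wo w) u) := by
    apply MvPolynomial.algHom_ext
    intro v
    rw [AlgHom.comp_apply, MvPolynomial.aeval_X, MvPolynomial.aeval_X, AlgHom.restrictScalars_apply]
    rcases v with o | v
    · rw [generic, Sum.elim_inl, Sum.elim_inl, MvPolynomial.aeval_C]
      rcases o with _ | o <;> rfl
    · rw [generic, Sum.elim_inr, Sum.elim_inr, MvPolynomial.aeval_X]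
  rw [← h2, AlgHom.comp_apply, AlgHom.restrictScalars_apply]
  rfl

lemma J_eq : J = Pool.Agent.TH21.MS.jj := by
  have h4 : E4 = Pool.Agent.TH21.MS.E4 := funext Pool.Agent.Y120.J.E4_same
  have h6 : E6 = Pool.Agent.TH21.MS.E6 := funext Pool.Agent.Y120.J.E6_same
  funext τ
  unfold J Pool.Agent.TH21.MS.jj
  rw [h4, h6]

lemma values_eq {q k : ℕ} (w : Fin q → ℂ) (z : Fin k → ℂ) :
    (Sum.elim (Pool.Agent.Y120.K.wo w) fun v : Fin k × Fin 3 => Pool.Agent.Y120.J.jt (z v.1) v.2) = values w z := by
  unfold values
  funext v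
  rcases v with o | v
  · rw [Sum.elim_inl, Sum.elim_inl]
    rcases o with _ | o <;> rfl
  · rw [Sum.elim_inr, Sum.elim_inr]
    unfold numbers Pool.Agent.Y120.J.jt
    rw [J_eq]

lemma sign {ε : ℤ} (hε : ε = 1 ∨ ε = -1) : ∃ s : Bool, Pool.Agent.Y120.J.si s = ε := by
  rcases hε with h | h
  · exact ⟨true, by rw [h]; rfl⟩
  · exact ⟨false, by rw [h]; rfl⟩

/-- For all `q`, `k` there is `C` such that for all `δ`, `N`, `H` with `(H + 2)^((δ + 2)^C) ≤ N`, all `w_1, …, w_q` and
`ε = ±1` there is a set `S` of at most `q + 2` integers such that for all distinct integers `n_1, …, n_k` outside `S` with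
`N ≤ ε n_i ≤ N + H` and all `z_i` with `j(z_i) = n_i` every polynomial `P` of degree at most `δ` over a number field `K` of
degree at most `δ` which vanishes at `2 π i, w_1, …, w_q` and the `3 k` numbers of the `z_i` is zero after the substitution of
`2 π i, w_1, …, w_q`. -/
theorem result (q k : ℕ) : ∃ C : ℕ, ∀ δ N H : ℕ, (H + 2) ^ ((δ + 2) ^ C) ≤ N →
    ∀ (w : Fin q → ℂ) (ε : ℤ), ε = 1 ∨ ε = -1 →
    ∃ S : Finset ℤ, S.card ≤ q + 2 ∧ ∀ n : Fin k → ℤ, Function.Injective n →
      (∀ i, (N : ℤ) ≤ ε * n i ∧ ε * n i ≤ N + H ∧ n i ∉ S) →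
      ∀ z : Fin k → ℂ, (∀ i, 0 < (z i).im ∧ J (z i) = n i) →
      ∀ K : IntermediateField ℚ ℂ, FiniteDimensional ℚ K → Module.finrank ℚ K ≤ δ →
      ∀ P : MvPolynomial (Option (Fin q) ⊕ Fin k × Fin 3) K, P.totalDegree ≤ δ →
        MvPolynomial.aeval (values w z) P = 0 → MvPolynomial.aeval (generic (k := k) w) P = 0 := by
  obtain ⟨E, ⟨C, hC⟩, hE⟩ := Pool.Agent.R351.GD.winZ2_exp q k
  refine ⟨C, fun δ N H hN w ε hε => ?_⟩
  obtain ⟨s, hs⟩ := sign hε
  obtain ⟨S, hSc, hS⟩ := hE δ N H ((Nat.pow_le_pow_right (by omega) (hC δ)).trans hN) w s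
  refine ⟨S, hSc, fun n hn1 hnS z hz K hK hKD P hP hP0 => ?_⟩
  rw [hs] at hS
  rw [← values_eq] at hP0
  have h1 := hS n hn1 hnS (fun i => ⟨z i, (hz i).1⟩) (fun i => by
    have h1 := (hz i).2
    rw [J_eq] at h1
    exact h1) K hK hKD P hP hP0
  apply MvPolynomial.funext
  intro u
  rw [map_zero, gen_eval]
  exact h1 u

end Pool.Agent.Results.MP_f58a57_nt.GrowingDegreeWindows
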