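import Pool.Agent.R437.Met.Fam
import Pool.Agent.R437.Met.Ren
import Pool.Agent.Results.MP_f58a57_nt.NumberFieldPoints

/-!
# Values of `e^(-2πi z)`, `j`, `j'`, `j''` at the points of a number field near a given point

Let `k` be a number field with an embedding `σ : k → ℂ` and `s_1, …, s_p` positive real numbers, linearly
independent over `ℚ` (for example `p = 1`, `s_1 = 1`). For all points `ξ` of the upper half-plane outside
one set of Hausdorff dimension zero the elements `z` of `k` which approximate `ξ` in the sense that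
`|ξ - z| ≤ C H(z) ^ (-τ)`, where `τ > 0` is arbitrarily small, all have, up to finitely many, the following
property: the `4 p + 1` numbers `π` and `exp (-2πi s_i z)`, `j (s_i z)`, `j' (s_i z)`, `j'' (s_i z)` satisfy
no polynomial relation of degree at most `d` with coefficients in `k` of height at most `H(z) ^ A`, not even
approximately, up to `H(z) ^ (-B)`. The starting file `NumberFieldPoints` bounds the number of the
exceptional `z` of height at most `T` by `C T ^ ε`.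
-/

set_option autoImplicit false

namespace Pool.Agent.Results.MP_f58a57_nt.NearEveryPoint

open Pool.Agent.R437.Met

/-- the normalised Eisenstein series of weight `4` -/
noncomputable def E4 (τ : ℂ) : ℂ :=
  1 + 240 * ∑' m : ℕ, ((ArithmeticFunction.sigma 3 (m + 1) : ℕ) : ℂ) *
    Complex.exp (2 * (Real.pi : ℂ) * Complex.I * τ) ^ (m + 1)

/-- the normalised Eisenstein series of weight `6` -/
noncomputable def E6 (τ : ℂ) : ℂ :=
  1 - 504 * ∑' m : ℕ, ((ArithmeticFunction.sigma 5 (m + 1) : ℕ) : ℂ) *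
    Complex.exp (2 * (Real.pi : ℂ) * Complex.I * τ) ^ (m + 1)

/-- the modular invariant `j = q⁻¹ + 744 + 196884 q + ⋯` -/
noncomputable def j (τ : ℂ) : ℂ := 1728 * E4 τ ^ 3 / (E4 τ ^ 3 - E6 τ ^ 2)

/-- `exp (-2πi z), j (z), j' (z), j'' (z)` (complex derivatives) -/
noncomputable def jet (z : ℂ) : Fin 4 → ℂ :=
  ![Complex.exp (-(2 * (Real.pi : ℂ) * Complex.I * z)), j z, deriv j z, deriv (deriv j) z]

/-- the `4 p + 1` numbers `π` and `exp (-2πi z), j (z), j' (z), j'' (z)` at the points `s_i z`, where `z` is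
read as a complex number by the embedding `σ` -/
noncomputable def numbers {k : Type} [Field k] (σ : k →+* ℂ) {p : ℕ} (s : Fin p → ℝ) (z : k)
    (i : Option (Fin p × Fin 4)) : ℂ :=
  i.elim (Real.pi : ℂ) fun q => jet ((s q.1 : ℂ) * σ z) q.2

/-- Some nonzero polynomial in `4 p + 1` variables, with coefficients in `k` of height at most `T ^ A` and
of degree at most `d` in each variable, takes at the `4 p + 1` numbers a value of absolute value at most
`T ^ (-B)`. -/
def Related {k : Type} [Field k] [NumberField k] (σ : k →+* ℂ) {p : ℕ} (s : Fin p → ℝ) (d : ℕ)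
    (A B T : ℝ) (z : k) : Prop :=
  ∃ P : MvPolynomial (Option (Fin p × Fin 4)) k, P ≠ 0 ∧ (∀ i, P.degreeOf i ≤ d) ∧
    (∀ e, Height.mulHeight₁ (P.coeff e) ≤ T ^ A) ∧ ‖MvPolynomial.eval₂ σ (numbers σ s z) P‖ ≤ T ^ (-B)

/-- the exceptional points in a compact set -/
def Ex {k : Type} [Field k] [NumberField k] (σ : k →+* ℂ) {p : ℕ} (s : Fin p → ℝ) (K : Set ℂ) (d : ℕ)
    (A B T : ℝ) : Set k :=
  {z | σ z ∈ K ∧ Height.mulHeight₁ z ≤ T ∧ Related σ s d A B T z}

lemma ex_sub {k : Type} [Field k] [NumberField k] (σ : k →+* ℂ) {p : ℕ} (s : Fin p → ℝ) (K : Set ℂ)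
    (d : ℕ) (A B T : ℝ) : (fun z => fun _ : Fin 1 => z) '' Ex σ s K d A B T ⊆
      NumberFieldPoints.Exceptional σ 1 d s K A B T := by
  rintro _ ⟨z, ⟨h1, h2, P, h3, h4, h5, h6⟩, rfl⟩
  refine ⟨fun _ => ⟨h1, h2⟩, MvPolynomial.rename (Ren.opt (Fin p × Fin 4)) P,
    Ren.rename_ne_zero _ h3, fun i => ?_, fun e => ?_, ?_⟩
  · rw [Ren.degreeOf_rename]
    exact h4 _
  · rw [Ren.coeff_rename]
    exact h5 _
  · rw [MvPolynomial.eval₂_rename]
    have : (NumberFieldPoints.numbers σ s fun _ : Fin 1 => z) ∘ (Ren.opt (Fin p × Fin 4)) =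
        numbers σ s z := by
      funext i
      cases i <;> rfl
    rw [this]
    exact h6

lemma good {k : Type} [Field k] [NumberField k] (σ : k →+* ℂ) {p : ℕ} (s : Fin p → ℝ)
    (hs0 : ∀ i, 0 < s i) (hs : ∀ c : Fin p → ℤ, ∑ i, (c i : ℝ) * s i = 0 → c = 0)
    (K : Set ℂ) (hK : IsCompact K) (hKH : ∀ z ∈ K, 0 < z.im) (d : ℕ) :
    Fam.Good (Ex σ s K d) 0 where
  count := by
    intro A ε _ hε
    obtain ⟨D, B, C, h⟩ := NumberFieldPoints.result k σ p 1 d le_rfl s hs0 hs K hK hKH A ε hε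
    refine ⟨B, C, 1, fun T hT => ?_⟩
    obtain ⟨-, h1, h2⟩ := h T hT
    have hinj : Function.Injective (fun z : k => fun _ : Fin 1 => z) := fun x y hxy =>
      congrFun hxy 0
    refine ⟨Set.Finite.of_finite_image (h1.subset (ex_sub σ s K d A B T)) hinj.injOn, ?_⟩
    rw [← Set.ncard_image_of_injective _ hinj, zero_add]
    refine le_trans ?_ (h2.trans (le_of_eq ?_))
    · exact_mod_cast Set.ncard_le_ncard (ex_sub σ s K d A B T) h1
    · simp
  monoA := by
    rintro A A' B T hA hT z ⟨h1, h2, P, h3, h4, h5, h6⟩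
    exact ⟨h1, h2, P, h3, h4, fun e => (h5 e).trans (Fam.pow_mono hA hT), h6⟩
  monoB := by
    rintro A B B' T hB hT z ⟨h1, h2, P, h3, h4, h5, h6⟩
    exact ⟨h1, h2, P, h3, h4, h5, h6.trans (Fam.pow_mono (by linarith) hT)⟩
  dyadic := by
    rintro A B T T' hA hB h2B hT h1 h2 z ⟨e1, e2, P, h3, h4, h5, h6⟩
    exact ⟨e1, e2.trans h1, P, h3, h4, fun e => (h5 e).trans
      (Real.rpow_le_rpow (by linarith) h1 hA), h6.trans (Fam.pow_dyadic hB hT h1 h2 h2B)⟩

/-- the compact sets -/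
def KK (m : ℕ) : Set ℂ := {z | ‖z‖ ≤ (m : ℝ) + 1 ∧ 1 / ((m : ℝ) + 1) ≤ z.im}

lemma KK_compact (m : ℕ) : IsCompact (KK m) := by
  have h1 : IsCompact (Metric.closedBall (0 : ℂ) ((m : ℝ) + 1)) := isCompact_closedBall _ _
  have h2 : IsClosed {z : ℂ | 1 / ((m : ℝ) + 1) ≤ z.im} :=
    isClosed_le continuous_const Complex.continuous_im
  have e : KK m = Metric.closedBall (0 : ℂ) ((m : ℝ) + 1) ∩ {z : ℂ | 1 / ((m : ℝ) + 1) ≤ z.im} := by
    ext z
    simp [KK]
  rw [e]
  exact h1.inter_right h2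

/-- **Points of a number field near a given point.** Let `k` be a number field with an embedding `σ` in
`ℂ`, and `s_1, …, s_p > 0` linearly independent over `ℚ`. There is a set `E` of Hausdorff dimension zero
such that for all `ξ` in the upper half-plane outside `E`, all `d`, `A` and `τ > 0` there is `B` such that
for all `C` and all large `T`: for the elements `z` of `k` of height at most `T` with
`|ξ - σ(z)| ≤ C T ^ (-τ)` no nonzero polynomial with coefficients in `k` of height at most `T ^ A`, of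
degree at most `d` in each variable, takes at the numbers `π`, `exp (-2πi s_i z)`, `j (s_i z)`,
`j' (s_i z)`, `j'' (s_i z)` a value of absolute value at most `T ^ (-B)`. -/
theorem result (k : Type) [Field k] [NumberField k] (σ : k →+* ℂ) (p : ℕ) (s : Fin p → ℝ)
    (hs0 : ∀ i, 0 < s i) (hs : ∀ c : Fin p → ℤ, ∑ i, (c i : ℝ) * s i = 0 → c = 0) :
    ∃ E : Set ℂ, dimH E = 0 ∧ ∀ ξ : ℂ, 0 < ξ.im → ξ ∉ E → ∀ (d : ℕ) (A τ : ℝ), 0 < τ →
      ∃ B : ℝ, ∀ C : ℝ, ∃ T₁ : ℝ, ∀ T : ℝ, T₁ ≤ T → ∀ z : k, Height.mulHeight₁ z ≤ T →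
        ‖ξ - σ z‖ ≤ C * T ^ (-τ) → ¬ Related σ s d A B T z := by
  have hpos : ∀ m : ℕ, (0 : ℝ) < 1 / ((m : ℝ) + 1) := fun m => by positivity
  obtain ⟨E, hE, h⟩ := Fam.fam_zero (J := ℕ × ℕ) (fun z : k => σ z)
    (fun q => Ex σ s (KK q.1) q.2) (fun q => good σ s hs0 hs (KK q.1) (KK_compact q.1)
      (fun z hz => lt_of_lt_of_le (hpos q.1) hz.2) q.2)
  refine ⟨E, hE, fun ξ hξ hξE d A τ hτ => ?_⟩
  obtain ⟨m, hm⟩ := exists_nat_ge (max (‖ξ‖ + 1) (2 / ξ.im))
  have hm1 : ‖ξ‖ + 1 ≤ m := (le_max_left _ _).trans hm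
  have hm2 : 2 / ξ.im ≤ m := (le_max_right _ _).trans hm
  have hm3 : 1 / ((m : ℝ) + 1) ≤ ξ.im / 2 := by
    rw [div_le_iff₀ (by positivity)]
    rw [div_le_iff₀ hξ] at hm2
    nlinarith
  obtain ⟨B, hB⟩ := h ξ hξE (m, d) A τ hτ
  refine ⟨B, fun C => ?_⟩
  obtain ⟨T₁, hT⟩ := hB C
  have hlim : Filter.Tendsto (fun T : ℝ => C * T ^ (-τ)) Filter.atTop (nhds (C * 0)) :=
    (tendsto_rpow_neg_atTop hτ).const_mul C
  rw [mul_zero] at hlim
  have hmin : 0 < min 1 (ξ.im / 2) := lt_min one_pos (by linarith)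
  obtain ⟨T₂, hT₂⟩ := Filter.eventually_atTop.1 (hlim.eventually (gt_mem_nhds hmin))
  refine ⟨max T₁ T₂, fun T hT' z hz hd hrel => ?_⟩
  have h1 := hT₂ T ((le_max_right _ _).trans hT')
  have h2 : ‖ξ - σ z‖ < min 1 (ξ.im / 2) := lt_of_le_of_lt hd h1
  have h3 : ‖ξ - σ z‖ < 1 := h2.trans_le (min_le_left _ _)
  have h4 : ‖ξ - σ z‖ < ξ.im / 2 := h2.trans_le (min_le_right _ _)
  have h5 : σ z ∈ KK m := by
    constructor
    · have := norm_sub_norm_le (σ z) ξ
      rw [norm_sub_rev] at this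
      linarith
    · have h6 : |(ξ - σ z).im| ≤ ‖ξ - σ z‖ := Complex.abs_im_le_norm _
      rw [Complex.sub_im] at h6
      have h7 := (abs_le.1 h6).2
      linarith
  have h8 := hT T ((le_max_left _ _).trans hT') z ⟨h5, hz, hrel⟩
  rw [dist_eq_norm] at h8
  linarith

end Pool.Agent.Results.MP_f58a57_nt.NearEveryPoint
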