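import Pool.Agent.R909.RandSets
import Pool.Agent.R479.DA.Lim
import Pool.Agent.Results.MP_f58a57_nt.NumberFieldPoints

/-!
# Random points of a number field

Let `k` be a number field with an embedding `σ` into `ℂ`, let `s_1, …, s_p` be positive real numbers,
linearly independent over `ℚ` (for example `p = 1`, `s_1 = 1`), let `K` be a compact subset of the
upper half-plane, `d` and `E` numbers and `γ > 0`. There is `B` such that for every random subset `A`
of `k` which contains `x` with probability `O (H (x) ^ (-γ))` there are almost surely only finitely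
many `z ∈ A` with `σ z ∈ K` such that a nonzero polynomial in `4 p + 1` variables of degree at most
`d` in each variable, with coefficients in `k` of height at most `H (z) ^ E`, takes a value
`≤ H (z) ^ (-B)` at `π` and the `e^(-2πi s_i z)`, `j (s_i z)`, `j' (s_i z)`, `j'' (s_i z)`.
-/

set_option autoImplicit false

namespace Pool.Agent.Results.MP_f58a57_nt.RandomPoints

open Filter Topology MeasureTheory
open Pool.Agent.Results.MP_f58a57_nt.NumberFieldPoints (numbers Exceptional)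

/-- `x` belongs to the random set `A` with probability at most `C * H (x) ^ (-γ)`, `H` the
multiplicative height -/
def Sparse {Ω k : Type} [Field k] [NumberField k] [MeasurableSpace Ω] (P : Measure Ω)
    (A : Ω → Set k) (γ C : ℝ) : Prop :=
  ∀ x : k, P {ω | x ∈ A ω} ≤ ENNReal.ofReal (C * Height.mulHeight₁ x ^ (-γ))

/-- `σ z ∈ K`, and some nonzero polynomial in `4 p + 1` variables with coefficients in `k` of height
at most `H (z) ^ E`, of degree at most `d` in each variable, takes at `π` and the numbers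
`exp (-2πi s_i z), j (s_i z), j' (s_i z), j'' (s_i z)` a value of absolute value at most
`H (z) ^ (-B)`. -/
def Bad {k : Type} [Field k] [NumberField k] (σ : k →+* ℂ) {p : ℕ} (d : ℕ) (s : Fin p → ℝ)
    (K : Set ℂ) (E B : ℝ) (z : k) : Prop :=
  σ z ∈ K ∧ ∃ P : MvPolynomial (Option (Fin 1 × (Fin p × Fin 4))) k, P ≠ 0 ∧
    (∀ i, P.degreeOf i ≤ d) ∧
    (∀ e, Height.mulHeight₁ (P.coeff e) ≤ Height.mulHeight₁ z ^ E) ∧
    ‖MvPolynomial.eval₂ σ (numbers σ s (fun _ : Fin 1 => z)) P‖ ≤ Height.mulHeight₁ z ^ (-B)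

/-- from a count between `√X` and `X` to a count up to `X` -/
lemma count_of_sqrt {f : ℝ → ℝ} (hmono : ∀ X Y : ℝ, X ≤ Y → f X ≤ f Y) {C ε : ℝ}
     (hε : 0 < ε) (h : ∀ X : ℝ, 1 ≤ X → f X ≤ f (√X) + C * X ^ ε) :
    ∃ M : ℝ, ∀ X : ℝ, 1 ≤ X → f X ≤ M * X ^ (2 * ε) := by
  set X₁ : ℝ := (2 : ℝ) ^ (1 / ε) with hX₁
  have hX1 : 1 < X₁ := Real.one_lt_rpow (by norm_num) (by positivity)
  have hX1ε : X₁ ^ ε = 2 := by
    rw [hX₁, ← Real.rpow_mul (by norm_num), one_div_mul_cancel hε.ne', Real.rpow_one]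
  set M : ℝ := max |C| (f X₁) with hM
  have hM0 : 0 ≤ M := (abs_nonneg C).trans (le_max_left _ _)
  have hsmall : ∀ X : ℝ, 1 ≤ X → X ≤ X₁ → f X ≤ M * X ^ (2 * ε) := by
    intro X hX hXX
    have h1 : 1 ≤ X ^ (2 * ε) := Real.one_le_rpow hX (by positivity)
    calc f X ≤ f X₁ := hmono _ _ hXX
      _ ≤ M := le_max_right _ _
      _ = M * 1 := (mul_one M).symm
      _ ≤ M * X ^ (2 * ε) := mul_le_mul_of_nonneg_left h1 hM0
  have key : ∀ n : ℕ, ∀ X : ℝ, 1 ≤ X → X ≤ X₁ ^ (2 ^ n) → f X ≤ M * X ^ (2 * ε) := by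
    intro n
    induction n with
    | zero =>
      intro X hX hXX
      exact hsmall X hX (by simpa using hXX)
    | succ n ih =>
      intro X hX hXX
      by_cases h1 : X ≤ X₁
      · exact hsmall X hX h1
      push Not at h1
      have hX0 : 0 ≤ X := by linarith
      have h2 : 1 ≤ √X := by
        rw [Real.one_le_sqrt]
        exact hX
      have h3 : √X ≤ X₁ ^ (2 ^ n) := by
        rw [Real.sqrt_le_left (by positivity), ← pow_mul, ← pow_succ]
        exact hXX
      have h4 := ih _ h2 h3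
      have h5 : √X ^ (2 * ε) = X ^ ε := by
        rw [Real.sqrt_eq_rpow, ← Real.rpow_mul hX0]
        congr 1
        ring
      rw [h5] at h4
      have h6 : 2 ≤ X ^ ε := by
        rw [← hX1ε]
        exact Real.rpow_le_rpow (by linarith) h1.le hε.le
      have h7 : C * X ^ ε ≤ M * X ^ ε :=
        mul_le_mul_of_nonneg_right ((le_abs_self C).trans (le_max_left _ _)) (by linarith)
      have h8 : X ^ (2 * ε) = X ^ ε * X ^ ε := by
        rw [two_mul, Real.rpow_add (by linarith)]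
      have h9 : M * X ^ ε * 2 ≤ M * X ^ ε * X ^ ε :=
        mul_le_mul_of_nonneg_left h6 (mul_nonneg hM0 (by linarith))
      calc f X ≤ f (√X) + C * X ^ ε := h X hX
        _ ≤ M * X ^ ε + M * X ^ ε := add_le_add h4 h7
        _ ≤ M * X ^ ε * X ^ ε := by linarith
        _ = M * X ^ (2 * ε) := by rw [h8]; ring
  refine ⟨M, fun X hX => ?_⟩
  obtain ⟨n, hn⟩ := pow_unbounded_of_one_lt X hX1
  exact key n X hX (hn.le.trans (pow_le_pow_right₀ hX1.le Nat.lt_two_pow_self.le))

/-- **Random points of a number field.** -/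
theorem result (k : Type) [Field k] [NumberField k] (σ : k →+* ℂ) (p d : ℕ) (s : Fin p → ℝ)
    (hs0 : ∀ i, 0 < s i) (hs : ∀ c : Fin p → ℤ, ∑ i, (c i : ℝ) * s i = 0 → c = 0) (K : Set ℂ)
    (hK : IsCompact K) (hKH : ∀ z ∈ K, 0 < z.im) (E γ : ℝ) (hγ : 0 < γ) :
    ∃ B : ℝ, ∀ (Ω : Type) [MeasurableSpace Ω] (P : Measure Ω) (A : Ω → Set k) (C : ℝ),
      Sparse P A γ C →
      (∀ᵐ ω ∂P, {z : k | z ∈ A ω ∧ Bad σ d s K E B z}.Finite) ∧
      ∃ D : ℝ, ∀ y : ℝ, 1 ≤ y →
        P {ω | ∃ z : k, z ∈ A ω ∧ y ≤ Height.mulHeight₁ z ∧ Bad σ d s K E B z} ≤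
          ENNReal.ofReal (D * y ^ (-(γ / 2))) := by
  classical
  obtain ⟨_, B₀, C₀, h⟩ := NumberFieldPoints.result k σ p 1 d le_rfl s hs0 hs K hK hKH (max E 0)
    (γ / 8) (by linarith)
  set B : ℝ := 2 * max B₀ 0 with hB
  have hfin : ∀ X : ℝ, {z : k | Bad σ d s K E B z ∧ Height.mulHeight₁ z ≤ X}.Finite := fun X =>
    (Northcott.finite_le (h := (Height.mulHeight₁ : k → ℝ)) X).subset fun z hz => hz.2
  obtain ⟨M, hM⟩ := count_of_sqrt
    (f := fun X : ℝ => (({z : k | Bad σ d s K E B z ∧ Height.mulHeight₁ z ≤ X}.ncard : ℕ) : ℝ))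
    (fun X Y hXY => by
      have hsub : {z : k | Bad σ d s K E B z ∧ Height.mulHeight₁ z ≤ X} ⊆
          {z : k | Bad σ d s K E B z ∧ Height.mulHeight₁ z ≤ Y} := fun z hz => ⟨hz.1, hz.2.trans hXY⟩
      exact_mod_cast Set.ncard_le_ncard hsub (hfin Y))
    (C := C₀) (ε := γ / 8) (by linarith) (fun X hX => by
      obtain ⟨-, h1, h2⟩ := h X hX
      rw [Nat.sub_self, pow_zero, mul_one] at h2
      have hX0 : 0 < X := by linarith
      have hsX : 0 < √X := Real.sqrt_pos.2 hX0
      set W : Set k := {z : k | (Bad σ d s K E B z ∧ Height.mulHeight₁ z ≤ X) ∧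
        √X < Height.mulHeight₁ z} with hW
      have hmaps : Set.MapsTo (fun z : k => (fun _ : Fin 1 => z)) W
          (Exceptional σ 1 d s K (max E 0) B₀ X) := by
        rintro z ⟨⟨⟨h3, Q, h4, h5, h6, h7⟩, h8⟩, h9⟩
        have hz1 : 1 ≤ Height.mulHeight₁ z := Height.one_le_mulHeight₁ z
        refine ⟨fun _ => ⟨h3, h8⟩, Q, h4, h5, fun e => ?_, ?_⟩
        · calc Height.mulHeight₁ (Q.coeff e) ≤ Height.mulHeight₁ z ^ E := h6 e
            _ ≤ Height.mulHeight₁ z ^ (max E 0) :=
                Real.rpow_le_rpow_of_exponent_le hz1 (le_max_left _ _)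
            _ ≤ X ^ (max E 0) := Real.rpow_le_rpow (by linarith) h8 (le_max_right _ _)
        · calc _ ≤ Height.mulHeight₁ z ^ (-B) := h7
            _ ≤ √X ^ (-B) := Real.rpow_le_rpow_of_nonpos hsX h9.le (by
                rw [hB]
                have := le_max_right B₀ 0
                linarith)
            _ = X ^ (-(max B₀ 0)) := by
                rw [Real.sqrt_eq_rpow, ← Real.rpow_mul hX0.le, hB]
                congr 1
                ring
            _ ≤ X ^ (-B₀) := Real.rpow_le_rpow_of_exponent_le hX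
                (by have := le_max_left B₀ 0; linarith)
      have hinj : Set.InjOn (fun z : k => (fun _ : Fin 1 => z)) W := fun z _ w _ hzw =>
        congrFun hzw 0
      have h3 := Set.ncard_le_ncard_of_injOn _ hmaps hinj h1
      have h4 : {z : k | Bad σ d s K E B z ∧ Height.mulHeight₁ z ≤ X} ⊆
          {z : k | Bad σ d s K E B z ∧ Height.mulHeight₁ z ≤ √X} ∪ W := by
        rintro z ⟨h5, h6⟩
        by_cases h7 : Height.mulHeight₁ z ≤ √X
        · exact Or.inl ⟨h5, h7⟩
        · exact Or.inr ⟨⟨h5, h6⟩, not_le.1 h7⟩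
      have h5 : {z : k | Bad σ d s K E B z ∧ Height.mulHeight₁ z ≤ X}.ncard ≤
          {z : k | Bad σ d s K E B z ∧ Height.mulHeight₁ z ≤ √X}.ncard + W.ncard :=
        (Set.ncard_le_ncard h4 ((hfin _).union ((hfin X).subset fun z hz => hz.1))).trans
          (Set.ncard_union_le _ _)
      have h6 : (({z : k | Bad σ d s K E B z ∧ Height.mulHeight₁ z ≤ X}.ncard : ℕ) : ℝ) ≤
          (({z : k | Bad σ d s K E B z ∧ Height.mulHeight₁ z ≤ √X}.ncard : ℕ) : ℝ) +
            ((W.ncard : ℕ) : ℝ) := by exact_mod_cast h5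
      have h7 : ((W.ncard : ℕ) : ℝ) ≤ C₀ * X ^ (γ / 8) :=
        le_trans (by exact_mod_cast h3) h2
      linarith)
  have hsum : Summable fun z : {z : k // Bad σ d s K E B z} =>
      Height.mulHeight₁ z.1 ^ (-(γ / 2)) := by
    refine Pool.Agent.R479.DA.summable_heights
      (fun z : {z : k // Bad σ d s K E B z} => Height.mulHeight₁ z.1)
      (fun z => Height.one_le_mulHeight₁ z.1) (s := 2 * (γ / 8)) (p := γ / 2) (C := M)
      (by linarith) (by linarith) (fun X hX => ?_)
    have hmaps : Set.MapsTo Subtype.val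
        {z : {z : k // Bad σ d s K E B z} | Height.mulHeight₁ z.1 ≤ X}
        {z : k | Bad σ d s K E B z ∧ Height.mulHeight₁ z ≤ X} := fun z hz => ⟨z.2, hz⟩
    have hinj : Set.InjOn Subtype.val
        {z : {z : k // Bad σ d s K E B z} | Height.mulHeight₁ z.1 ≤ X} :=
      Subtype.val_injective.injOn
    refine ⟨(hfin X).of_injOn hmaps hinj, ?_⟩
    have h1 := Set.ncard_le_ncard_of_injOn _ hmaps hinj (hfin X)
    exact le_trans (by exact_mod_cast h1) (hM X hX)
  refine ⟨B, fun Ω _ P A C hA => ?_⟩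
  obtain ⟨h1, D, h2⟩ := Pool.Agent.R909.RS.single (P := P)
    (nm := (Height.mulHeight₁ : k → ℝ)) (A := A) (γ := γ) (C := C) (fun x _ => hA x)
    (Q := fun z => Bad σ d s K E B z) (H := fun z => Height.mulHeight₁ z)
    (fun z _ => Height.one_le_mulHeight₁ z) (u := fun z => z) (K := 1) one_pos
    (fun z _ => by rw [one_mul]) hγ.le (p := γ / 2) (η := γ / 2) (by linarith) (by linarith) hsum
  refine ⟨?_, D, fun y hy => ?_⟩
  · filter_upwards [h1] with ω hω
    exact hω.subset fun z hz => ⟨hz.2, hz.1⟩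
  · refine le_trans (measure_mono ?_) (h2 y hy)
    rintro ω ⟨z, h3, h4, h5⟩
    exact ⟨z, h5, h4, h3⟩

end Pool.Agent.Results.MP_f58a57_nt.RandomPoints
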